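import Pool.Agent.Y935.RE.Stm

/-!
# RE-MV: mean value over the exponent
-/

set_option autoImplicit false

namespace Pool.Agent.Y220.RE

open Finset MeasureTheory Filter
open Pool.Agent.Y935.WR (Jc)
open Pool.Agent.Y935.RE
open scoped ENNReal

/-! ### Lists -/

theorem blk_mem {p β : ℝ} : ∀ (r : ℕ) (lam : ℝ) (x : List ℕ), x ∈ blk p β r lam →
    x.length = r ∧ ∀ a ∈ x, 1 ≤ a := by
  intro r
  induction r with
  | zero =>
    intro lam x hx
    rw [blk, Finset.mem_singleton] at hx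
    subst hx
    simp
  | succ r ih =>
    intro lam x hx
    rw [blk, Finset.mem_image] at hx
    obtain ⟨⟨a, l⟩, ht, rfl⟩ := hx
    rw [Finset.mem_product, Finset.mem_Ioc] at ht
    obtain ⟨h1, h2⟩ := ih _ _ ht.2
    constructor
    · simp only [List.length_cons, h1]
    · intro b hb
      simp only [List.mem_cons] at hb
      rcases hb with rfl | hb
      · have := ht.1.1
        simp only at this
        omega
      · exact h2 b hb

theorem vl_near (α c : ℝ) (l : List ℕ) : (vl α c l : ℝ) ≤ α * Sv c l ∧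
    α * Sv c l ≤ vl α c l + l.length := by
  induction l with
  | nil => simp [vl, Sv]
  | cons a l ih =>
    have e1 : vl α c (a :: l) = ⌊α * (a : ℝ) ^ c⌋ + vl α c l := by simp [vl]
    have e2 : Sv c (a :: l) = (a : ℝ) ^ c + Sv c l := by simp [Sv]
    have h1 := Int.floor_le (α * (a : ℝ) ^ c)
    have h2 := (Int.lt_floor_add_one (α * (a : ℝ) ^ c)).le
    rw [e1, e2, List.length_cons, mul_add]
    push_cast
    constructor <;> linarith [ih.1, ih.2]

theorem Sv_deriv (l : List ℕ) (hl : ∀ a ∈ l, 1 ≤ a) (c : ℝ) :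
    HasDerivAt (fun c => Sv c l) (Sd c l) c := by
  induction l with
  | nil => simpa [Sv, Sd] using hasDerivAt_const c (0 : ℝ)
  | cons a l ih =>
    have ha : (0 : ℝ) < a := by
      have : 1 ≤ a := hl a (by simp)
      exact_mod_cast this
    have h1 : HasDerivAt (fun c : ℝ => (a : ℝ) ^ c) ((a : ℝ) ^ c * Real.log a) c :=
      (Real.hasStrictDerivAt_const_rpow ha c).hasDerivAt
    have h2 := h1.add (ih (fun b hb => hl b (by simp [hb])))
    have e1 : (fun c => Sv c (a :: l)) = (fun c : ℝ => (a : ℝ) ^ c) + fun c => Sv c l := by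
      funext c
      simp [Sv]
    have e2 : Sd c (a :: l) = (a : ℝ) ^ c * Real.log a + Sd c l := by simp [Sd]
    rw [e1, e2]
    exact h2

theorem vl_measurable (α : ℝ) (l : List ℕ) : Measurable fun c : ℝ => vl α c l := by
  induction l with
  | nil => simp only [vl, List.map_nil, List.sum_nil]; exact measurable_const
  | cons a l ih =>
    have e1 : (fun c => vl α c (a :: l)) = fun c => ⌊α * (a : ℝ) ^ c⌋ + vl α c l := by
      funext c
      simp [vl]
    rw [e1]
    have h : Measurable fun c : ℝ => α * (a : ℝ) ^ c := by fun_prop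
    exact (Int.measurable_floor.comp h).add ih

/-! ### Analysis -/

theorem mvt {g g' : ℝ → ℝ} {c1 c2 m M : ℝ}
    (h : ∀ c, c1 ≤ c → c ≤ c2 → HasDerivAt g (g' c) c ∧ m ≤ |g' c| ∧ |g' c| ≤ M) :
    ∀ c c', c1 ≤ c → c ≤ c2 → c1 ≤ c' → c' ≤ c2 →
      m * |c - c'| ≤ |g c - g c'| ∧ |g c - g c'| ≤ M * |c - c'| := by
  have key : ∀ c c', c1 ≤ c → c' ≤ c2 → c < c' →
      m * |c - c'| ≤ |g c - g c'| ∧ |g c - g c'| ≤ M * |c - c'| := by
    intro c c' h1 h2 hlt
    obtain ⟨ξ, hξ, hs⟩ := exists_hasDerivAt_eq_slope g g' hlt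
      (fun y hy => (h y (h1.trans hy.1) (hy.2.trans h2)).1.continuousAt.continuousWithinAt)
      (fun y hy => (h y (h1.trans hy.1.le) (hy.2.le.trans h2)).1)
    have hb := (h ξ (h1.trans hξ.1.le) (hξ.2.le.trans h2)).2
    have hpos : 0 < c' - c := by linarith
    have e : |g c - g c'| = |g' ξ| * |c - c'| := by
      rw [abs_sub_comm (g c), abs_sub_comm c, ← abs_mul, hs, div_mul_cancel₀ _ hpos.ne']
    rw [e]
    exact ⟨mul_le_mul_of_nonneg_right hb.1 (abs_nonneg _),
      mul_le_mul_of_nonneg_right hb.2 (abs_nonneg _)⟩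
  intro c c' h1 h2 h3 h4
  rcases lt_trichotomy c c' with hlt | rfl | hlt
  · exact key c c' h1 h4 hlt
  · simp
  · have := key c' c h3 h2 hlt
    rw [abs_sub_comm c c', abs_sub_comm (g c)]
    exact this

theorem log_small {t : ℝ} (ht : |t| ≤ 1 / 2) : |Real.log (1 - t)| ≤ 2 * |t| := by
  have h1 := (abs_le.1 ht).1
  have h2 := (abs_le.1 ht).2
  have hp : 0 < 1 - t := by linarith
  have h3 := Real.log_le_sub_one_of_pos hp
  have h4 := Real.one_sub_inv_le_log_of_pos hp
  have h5 := neg_abs_le t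
  have h6 := le_abs_self t
  rw [abs_le]
  constructor
  · have h7 : (1 - t)⁻¹ ≤ 1 + 2 * |t| := by
      rw [inv_le_iff_one_le_mul₀ hp]
      rcases le_or_gt 0 t with h | h
      · rw [abs_of_nonneg h]
        nlinarith
      · rw [abs_of_neg h]
        nlinarith
    linarith
  · linarith

theorem piece {D D' E E' : ℝ → ℝ} {c1 c2 L a b s R : ℝ} (hR : 0 ≤ R)
    (hD : ∀ c, HasDerivAt D (D' c) c) (hE : ∀ c, HasDerivAt E (E' c) c) (hL : 1 ≤ L)
    (ha : |a| ≤ L) (hb : |b| ≤ L) (hab : 9 ≤ |b - a|)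
    (h1 : ∀ c, c1 ≤ c → c ≤ c2 → 4 * R + 4 ≤ |D c| ∧ |D' c - a * D c| ≤ 4 * |D c|)
    (h2 : ∀ c, c1 ≤ c → c ≤ c2 → 4 * R + 4 ≤ |E c| ∧ |E' c - b * E c| ≤ 4 * |E c|)
    (hs1 : c1 ≤ s) (hs2 : s ≤ c2) :
    volume {c | (c1 ≤ c ∧ c ≤ c2) ∧ (s ≤ c ∧ c ≤ s + 1 / L) ∧ |D c + E c| ≤ 2 * R} ≤
      ENNReal.ofReal (if |E s| ≤ 2 * Real.exp 10 * |D s| then 8 * R * Real.exp 5 / |D s| else 0) := by
  have hLpos : 0 < L := by linarith
  have hD0 : ∀ c, c1 ≤ c → c ≤ c2 → 0 < |D c| := fun c k1 k2 => by linarith [(h1 c k1 k2).1]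
  have hE0 : ∀ c, c1 ≤ c → c ≤ c2 → 0 < |E c| := fun c k1 k2 => by linarith [(h2 c k1 k2).1]
  have qD : ∀ c, c1 ≤ c → c ≤ c2 → |D' c / D c - a| ≤ 4 := by
    intro c k1 k2
    have h3 := hD0 c k1 k2
    have h4 : D c ≠ 0 := abs_pos.1 h3
    have e : D' c / D c - a = (D' c - a * D c) / D c := by field_simp
    rw [e, abs_div, div_le_iff₀ h3]
    exact (h1 c k1 k2).2
  have qE : ∀ c, c1 ≤ c → c ≤ c2 → |E' c / E c - b| ≤ 4 := by
    intro c k1 k2
    have h3 := hE0 c k1 k2
    have h4 : E c ≠ 0 := abs_pos.1 h3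
    have e : E' c / E c - b = (E' c - b * E c) / E c := by field_simp
    rw [e, abs_div, div_le_iff₀ h3]
    exact (h2 c k1 k2).2
  have lD : ∀ c, c1 ≤ c → c ≤ c2 → HasDerivAt (fun c => Real.log (D c)) (D' c / D c) c :=
    fun c k1 k2 => (hD c).log (abs_pos.1 (hD0 c k1 k2))
  have lE : ∀ c, c1 ≤ c → c ≤ c2 → HasDerivAt (fun c => Real.log (E c)) (E' c / E c) c :=
    fun c k1 k2 => (hE c).log (abs_pos.1 (hE0 c k1 k2))
  have mD := mvt (g := fun c => Real.log (D c)) (g' := fun c => D' c / D c) (c1 := c1) (c2 := c2)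
    (m := 0) (M := 5 * L) (fun c k1 k2 => ⟨lD c k1 k2, abs_nonneg _, by
      have h3 := qD c k1 k2
      have h4 : |D' c / D c| ≤ |D' c / D c - a| + |a| := by
        have := abs_add_le (D' c / D c - a) a
        rwa [sub_add_cancel] at this
      linarith⟩)
  have mE := mvt (g := fun c => Real.log (E c)) (g' := fun c => E' c / E c) (c1 := c1) (c2 := c2)
    (m := 0) (M := 5 * L) (fun c k1 k2 => ⟨lE c k1 k2, abs_nonneg _, by
      have h3 := qE c k1 k2
      have h4 : |E' c / E c| ≤ |E' c / E c - b| + |b| := by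
        have := abs_add_le (E' c / E c - b) b
        rwa [sub_add_cancel] at this
      linarith⟩)
  have mH := mvt (g := fun c => Real.log (E c) - Real.log (D c))
    (g' := fun c => E' c / E c - D' c / D c) (c1 := c1) (c2 := c2)
    (m := 1) (M := |b - a| + 8) (fun c k1 k2 => by
      have h3 := abs_le.1 (qD c k1 k2)
      have h4 := abs_le.1 (qE c k1 k2)
      refine ⟨(lE c k1 k2).sub (lD c k1 k2), ?_, ?_⟩
      · have h5 : |b - a| ≤ |E' c / E c - D' c / D c| + 8 := by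
          have h6 : b - a = (E' c / E c - D' c / D c) - ((E' c / E c - b) - (D' c / D c - a)) := by
            ring
          have h7 : |(E' c / E c - b) - (D' c / D c - a)| ≤ 8 := by
            rw [abs_le]
            constructor <;> linarith [h3.1, h3.2, h4.1, h4.2]
          rw [h6]
          have h8 := abs_sub_le (E' c / E c - D' c / D c) 0 ((E' c / E c - b) - (D' c / D c - a))
          rw [sub_zero, zero_sub, abs_neg] at h8
          linarith
        linarith
      · have h6 : E' c / E c - D' c / D c = (b - a) + ((E' c / E c - b) - (D' c / D c - a)) := by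
            ring
        have h7 : |(E' c / E c - b) - (D' c / D c - a)| ≤ 8 := by
            rw [abs_le]
            constructor <;> linarith [h3.1, h3.2, h4.1, h4.2]
        rw [h6]
        exact (abs_add_le _ _).trans (by linarith))
  have near : ∀ c, s ≤ c → c ≤ s + 1 / L → |c - s| ≤ 1 / L := by
    intro c k1 k2
    rw [abs_of_nonneg (by linarith)]
    linarith
  have cmp : ∀ {x y : ℝ}, 0 < |x| → 0 < |y| → |Real.log x - Real.log y| ≤ 5 →
      |x| ≤ Real.exp 5 * |y| ∧ |y| ≤ Real.exp 5 * |x| := by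
    intro x y hx hy h
    have h3 := abs_le.1 h
    rw [← Real.log_abs x, ← Real.log_abs y] at h3
    constructor
    · have h4 : Real.log |x| ≤ 5 + Real.log |y| := by linarith
      have h5 := Real.exp_le_exp.2 h4
      rwa [Real.exp_add, Real.exp_log hx, Real.exp_log hy] at h5
    · have h4 : Real.log |y| ≤ 5 + Real.log |x| := by linarith
      have h5 := Real.exp_le_exp.2 h4
      rwa [Real.exp_add, Real.exp_log hx, Real.exp_log hy] at h5
  have hkey : ∀ c, c1 ≤ c → c ≤ c2 → s ≤ c → c ≤ s + 1 / L → |D c + E c| ≤ 2 * R →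
      |Real.log (E c) - Real.log (D c)| ≤ 4 * R * Real.exp 5 / |D s| ∧
      |E s| ≤ 2 * Real.exp 10 * |D s| := by
    intro c k1 k2 k3 k4 k5
    have hn := near c k3 k4
    have hDc := hD0 c k1 k2
    have hDs := hD0 s hs1 hs2
    have hEc := hE0 c k1 k2
    have hEs := hE0 s hs1 hs2
    have five : 5 * L * |c - s| ≤ 5 := by
      calc 5 * L * |c - s| ≤ 5 * L * (1 / L) := by gcongr
        _ = 5 := by field_simp
    have u1 := cmp hDc hDs (((mD c s k1 k2 hs1 hs2).2).trans five)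
    have u2 := cmp hEc hEs (((mE c s k1 k2 hs1 hs2).2).trans five)
    have hDne : D c ≠ 0 := abs_pos.1 hDc
    have hEne : E c ≠ 0 := abs_pos.1 hEc
    set t : ℝ := (D c + E c) / D c with ht
    have ht1 : |t| ≤ 2 * R / |D c| := by
      rw [ht, abs_div]
      gcongr
    have ht2 : |t| ≤ 1 / 2 := by
      refine ht1.trans ?_
      rw [div_le_iff₀ hDc]
      linarith [(h1 c k1 k2).1]
    have e1 : Real.log (E c) - Real.log (D c) = Real.log (1 - t) := by
      rw [← Real.log_div hEne hDne]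
      have e2 : E c / D c = -(1 - t) := by
        rw [ht]
        field_simp
        ring
      rw [e2, Real.log_neg_eq_log]
    constructor
    · rw [e1]
      calc |Real.log (1 - t)| ≤ 2 * |t| := log_small ht2
        _ ≤ 2 * (2 * R / |D c|) := by gcongr
        _ = 4 * R * (1 / |D c|) := by ring
        _ ≤ 4 * R * (Real.exp 5 / |D s|) := by
            gcongr 4 * R * ?_
            rw [div_le_div_iff₀ hDc hDs, one_mul]
            exact u1.2
        _ = 4 * R * Real.exp 5 / |D s| := by ring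
    · have e3 : |E c| ≤ 2 * |D c| := by
        have h5 : |E c| ≤ |D c + E c| + |D c| := by
          have := abs_sub_le (D c + E c) 0 (D c)
          rw [sub_zero, zero_sub, abs_neg, add_sub_cancel_left] at this
          exact this
        linarith [(h1 c k1 k2).1]
      have e10 : Real.exp 10 = Real.exp 5 * Real.exp 5 := by
        rw [← Real.exp_add]
        norm_num
      calc |E s| ≤ Real.exp 5 * |E c| := u2.2
        _ ≤ Real.exp 5 * (2 * |D c|) := by gcongr
        _ ≤ Real.exp 5 * (2 * (Real.exp 5 * |D s|)) := by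
            gcongr
            exact u1.1
        _ = 2 * Real.exp 10 * |D s| := by rw [e10]; ring
  set S : Set ℝ := {c | (c1 ≤ c ∧ c ≤ c2) ∧ (s ≤ c ∧ c ≤ s + 1 / L) ∧ |D c + E c| ≤ 2 * R} with hS
  rcases S.eq_empty_or_nonempty with he | ⟨c0, hc0⟩
  · rw [he]
    simp
  · have hif : |E s| ≤ 2 * Real.exp 10 * |D s| :=
      (hkey c0 hc0.1.1 hc0.1.2 hc0.2.1.1 hc0.2.1.2 hc0.2.2).2
    rw [if_pos hif]
    refine (Real.volume_le_diam S).trans ?_
    refine Metric.ediam_le ?_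
    intro x hx y hy
    rw [edist_dist, Real.dist_eq]
    apply ENNReal.ofReal_le_ofReal
    have k1 := (mH x y hx.1.1 hx.1.2 hy.1.1 hy.1.2).1
    have k2 := (hkey x hx.1.1 hx.1.2 hx.2.1.1 hx.2.1.2 hx.2.2).1
    have k3 := (hkey y hy.1.1 hy.1.2 hy.2.1.1 hy.2.1.2 hy.2.2).1
    rw [one_mul] at k1
    have k4 := abs_sub_le (Real.log (E x) - Real.log (D x)) 0 (Real.log (E y) - Real.log (D y))
    rw [sub_zero, zero_sub, abs_neg] at k4
    calc |x - y| ≤ _ := k1
      _ ≤ _ := k4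
      _ ≤ 4 * R * Real.exp 5 / |D s| + 4 * R * Real.exp 5 / |D s| := by gcongr
      _ = 8 * R * Real.exp 5 / |D s| := by ring

theorem sep {β γ : ℝ} (r : ℕ) (hβ : 0 < β) (hβγ : β < γ) (hγ : γ < 1) :
    ∃ ρ : ℝ, 0 < ρ ∧ ∀ i < r, ∀ j < r, ρ ≤ |γ * β ^ i - β ^ j| := by
  have hβ1 : β ≤ 1 := (hβγ.trans hγ).le
  refine ⟨β ^ r * min (1 - γ) (γ - β), ?_, ?_⟩
  · have : 0 < min (1 - γ) (γ - β) := lt_min (by linarith) (by linarith)
    positivity
  · intro i hi j hj
    have hri : β ^ r ≤ β ^ i := pow_le_pow_of_le_one hβ.le hβ1 hi.le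
    have hi0 : 0 < β ^ i := by positivity
    rcases le_or_gt j i with h | h
    · have h3 : β ^ i ≤ β ^ j := pow_le_pow_of_le_one hβ.le hβ1 h
      rw [abs_sub_comm]
      refine le_trans ?_ (le_abs_self _)
      calc β ^ r * min (1 - γ) (γ - β) ≤ β ^ i * (1 - γ) := by
            apply mul_le_mul hri (min_le_left _ _) (le_min (by linarith) (by linarith)) hi0.le
        _ ≤ β ^ j - γ * β ^ i := by linarith
    · have h3 : β ^ j ≤ β ^ (i + 1) := pow_le_pow_of_le_one hβ.le hβ1 h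
      refine le_trans ?_ (le_abs_self _)
      calc β ^ r * min (1 - γ) (γ - β) ≤ β ^ i * (γ - β) := by
            apply mul_le_mul hri (min_le_right _ _) (le_min (by linarith) (by linarith)) hi0.le
        _ ≤ γ * β ^ i - β ^ j := by
            rw [pow_succ] at h3
            linarith

lemma Jc_eq {ι : Type} (A : Finset ι) (a : ι → ℤ) :
    (Jc A a : ℝ≥0∞) = ∑ p ∈ A ×ˢ A, if a p.1 = a p.2 then 1 else 0 := by
  unfold Jc
  rw [Finset.card_filter]
  push_cast
  rfl

/-- the weights -/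
noncomputable def wt (r : ℕ) (s : ℝ) (x y x' y' : List ℕ) : ℝ := by
  classical
  exact if x ≠ y ∧ y' ≠ x' ∧ |Sv s x' - Sv s y'| ≤ 2 * Real.exp 10 * |Sv s x - Sv s y| then
    8 * r * Real.exp 5 / |Sv s x - Sv s y| else 0

theorem wt_nonneg (r : ℕ) (s : ℝ) (x y x' y' : List ℕ) : 0 ≤ wt r s x y x' y' := by
  unfold wt
  split_ifs
  · positivity
  · exact le_rfl

theorem wt_sum {r : ℕ} {s K T : ℝ} {A' : Finset (List ℕ)} (hK : 0 < K) (hT : 0 ≤ T)
    {x y x' : List ℕ}
    (h : ∀ V : ℝ, 0 ≤ V → ((A'.filter fun y' => y' ≠ x' ∧ |Sv s x' - Sv s y'| ≤ V).card : ℝ) ≤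
      K * V * T) :
    ∑ y' ∈ A', wt r s x y x' y' ≤ 16 * K * r * Real.exp 15 * T := by
  classical
  set V : ℝ := 2 * Real.exp 10 * |Sv s x - Sv s y| with hV
  set W : ℝ := 8 * r * Real.exp 5 / |Sv s x - Sv s y| with hW
  have hV0 : 0 ≤ V := by positivity
  have hW0 : 0 ≤ W := by positivity
  have h1 : ∑ y' ∈ A', wt r s x y x' y' ≤
      ∑ y' ∈ A', if (y' ≠ x' ∧ |Sv s x' - Sv s y'| ≤ V) then W else 0 := by
    refine Finset.sum_le_sum fun y' _ => ?_
    unfold wt
    split_ifs with k1 k2 k3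
    · exact le_rfl
    · exact absurd k1.2 k2
    · exact hW0
    · exact le_rfl
  refine h1.trans ?_
  rw [← Finset.sum_filter, Finset.sum_const, nsmul_eq_mul]
  have h2 := h V hV0
  have h3 : V * W ≤ 16 * r * Real.exp 15 := by
    have e15 : Real.exp 15 = Real.exp 10 * Real.exp 5 := by
      rw [← Real.exp_add]
      norm_num
    have e : V * W = 16 * r * Real.exp 15 * (|Sv s x - Sv s y| / |Sv s x - Sv s y|) := by
      rw [hV, hW, e15]
      ring
    rw [e]
    have := div_self_le_one |Sv s x - Sv s y|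
    have h5 : 0 ≤ 16 * (r : ℝ) * Real.exp 15 := by positivity
    nlinarith
  calc ((A'.filter fun y' => y' ≠ x' ∧ |Sv s x' - Sv s y'| ≤ V).card : ℝ) * W ≤ K * V * T * W := by
        gcongr
    _ = K * T * (V * W) := by ring
    _ ≤ K * T * (16 * r * Real.exp 15) := by gcongr
    _ = _ := by ring

theorem quad {β γ c1 c2 ρ : ℝ} {r p : ℕ} (hβ : 0 < β) (hβγ : β < γ) (hγ : γ < 1)
    (hρ : 0 < ρ) (hsep : ∀ i < r, ∀ j < r, ρ ≤ |γ * β ^ i - β ^ j|)
    (hlog : 1 + 9 / ρ ≤ Real.log p)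
    (hLD1 : ∀ x ∈ blk p β r 1, ∀ y ∈ blk p β r 1, x ≠ y →
      ∃ j < r, ∀ c : ℝ, c1 ≤ c → c ≤ c2 → 4 * (r : ℝ) + 4 ≤ |Sv c x - Sv c y| ∧
      |Sd c x - Sd c y - 1 * β ^ j * Real.log p * (Sv c x - Sv c y)| ≤ 4 * |Sv c x - Sv c y|)
    (hLDγ : ∀ x ∈ blk p β r γ, ∀ y ∈ blk p β r γ, x ≠ y →
      ∃ j < r, ∀ c : ℝ, c1 ≤ c → c ≤ c2 → 4 * (r : ℝ) + 4 ≤ |Sv c x - Sv c y| ∧
      |Sd c x - Sd c y - γ * β ^ j * Real.log p * (Sv c x - Sv c y)| ≤ 4 * |Sv c x - Sv c y|)
    {α : ℝ} (hα : 1 ≤ α) {x y x' y' : List ℕ} (hx : x ∈ blk p β r 1) (hy : y ∈ blk p β r 1)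
    (hx' : x' ∈ blk p β r γ) (hy' : y' ∈ blk p β r γ) :
    volume ({c | vl α c x + vl α c x' = vl α c y + vl α c y'} ∩ Set.Icc c1 c2) ≤
      ENNReal.ofReal ((if (x, x') = (y, y') then c2 - c1 else 0) +
        ∑ k ∈ range (⌊(c2 - c1) * Real.log p⌋₊ + 1), wt r (c1 + k / Real.log p) x y x' y') := by
  set L := Real.log p with hL
  have hL1 : 1 ≤ L := by
    have : 0 ≤ 9 / ρ := by positivity
    linarith
  have hLpos : 0 < L := by linarith
  have hβ1 : β ≤ 1 := (hβγ.trans hγ).le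
  have hγ0 : 0 < γ := hβ.trans hβγ
  have hnear : ∀ c, vl α c x + vl α c x' = vl α c y + vl α c y' →
      |(Sv c x - Sv c y) + (Sv c x' - Sv c y')| ≤ 2 * r := by
    intro c hc
    have n1 := vl_near α c x
    have n2 := vl_near α c x'
    have n3 := vl_near α c y
    have n4 := vl_near α c y'
    rw [(blk_mem _ _ _ hx).1] at n1
    rw [(blk_mem _ _ _ hx').1] at n2
    rw [(blk_mem _ _ _ hy).1] at n3
    rw [(blk_mem _ _ _ hy').1] at n4
    have hc' : (vl α c x : ℝ) + vl α c x' = vl α c y + vl α c y' := by exact_mod_cast hc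
    have h5 : |α * ((Sv c x - Sv c y) + (Sv c x' - Sv c y'))| ≤ 2 * r := by
      rw [abs_le]
      constructor
      · have e : α * ((Sv c x - Sv c y) + (Sv c x' - Sv c y')) =
          α * Sv c x + α * Sv c x' - α * Sv c y - α * Sv c y' := by ring
        rw [e]
        linarith [n1.1, n2.1, n3.2, n4.2]
      · have e : α * ((Sv c x - Sv c y) + (Sv c x' - Sv c y')) =
          α * Sv c x + α * Sv c x' - α * Sv c y - α * Sv c y' := by ring
        rw [e]
        linarith [n1.2, n2.2, n3.1, n4.1]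
    rw [abs_mul, abs_of_nonneg (by linarith : (0 : ℝ) ≤ α)] at h5
    have h6 := abs_nonneg ((Sv c x - Sv c y) + (Sv c x' - Sv c y'))
    nlinarith
  have hsum0 : 0 ≤ ∑ k ∈ range (⌊(c2 - c1) * L⌋₊ + 1), wt r (c1 + k / L) x y x' y' :=
    Finset.sum_nonneg fun k _ => wt_nonneg _ _ _ _ _ _
  have hr0 : (0 : ℝ) ≤ r := Nat.cast_nonneg r
  by_cases hxy : x = y
  · by_cases hxy' : x' = y'
    · rw [if_pos (by rw [hxy, hxy'])]
      refine (measure_mono Set.inter_subset_right).trans ?_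
      rw [Real.volume_Icc]
      exact ENNReal.ofReal_le_ofReal (by linarith)
    · have he : {c | vl α c x + vl α c x' = vl α c y + vl α c y'} ∩ Set.Icc c1 c2 = ∅ := by
        rw [Set.eq_empty_iff_forall_notMem]
        rintro c ⟨hc, hcI⟩
        have h5 := hnear c hc
        obtain ⟨j, _, hj⟩ := hLDγ x' hx' y' hy' hxy'
        have h6 := (hj c hcI.1 hcI.2).1
        rw [hxy, sub_self, zero_add] at h5
        linarith
      rw [he, measure_empty]
      exact zero_le
  · have hne : ¬ (x, x') = (y, y') := fun h => hxy (Prod.mk.inj h).1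
    rw [if_neg hne, zero_add]
    by_cases hxy' : x' = y'
    · have he : {c | vl α c x + vl α c x' = vl α c y + vl α c y'} ∩ Set.Icc c1 c2 = ∅ := by
        rw [Set.eq_empty_iff_forall_notMem]
        rintro c ⟨hc, hcI⟩
        have h5 := hnear c hc
        obtain ⟨j, _, hj⟩ := hLD1 x hx y hy hxy
        have h6 := (hj c hcI.1 hcI.2).1
        rw [hxy', sub_self, add_zero] at h5
        linarith
      rw [he, measure_empty]
      exact zero_le
    · obtain ⟨j, hjr, hj⟩ := hLD1 x hx y hy hxy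
      obtain ⟨i, hir, hi⟩ := hLDγ x' hx' y' hy' hxy'
      set D : ℝ → ℝ := fun c => Sv c x - Sv c y with hD
      set E : ℝ → ℝ := fun c => Sv c x' - Sv c y' with hE
      have dD : ∀ c, HasDerivAt D (Sd c x - Sd c y) c := fun c =>
        (Sv_deriv x (blk_mem _ _ _ hx).2 c).sub (Sv_deriv y (blk_mem _ _ _ hy).2 c)
      have dE : ∀ c, HasDerivAt E (Sd c x' - Sd c y') c := fun c =>
        (Sv_deriv x' (blk_mem _ _ _ hx').2 c).sub (Sv_deriv y' (blk_mem _ _ _ hy').2 c)
      have hβj : β ^ j ≤ 1 := pow_le_one₀ hβ.le hβ1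
      have hβi : β ^ i ≤ 1 := pow_le_one₀ hβ.le hβ1
      have hβj0 : 0 < β ^ j := by positivity
      have hβi0 : 0 < β ^ i := by positivity
      have ha : |1 * β ^ j * L| ≤ L := by
        rw [one_mul, abs_of_nonneg (by positivity)]
        nlinarith
      have hb : |γ * β ^ i * L| ≤ L := by
        rw [abs_of_nonneg (by positivity)]
        have : γ * β ^ i ≤ 1 := by nlinarith
        nlinarith
      have hab : 9 ≤ |γ * β ^ i * L - 1 * β ^ j * L| := by
        have e : γ * β ^ i * L - 1 * β ^ j * L = (γ * β ^ i - β ^ j) * L := by ring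
        rw [e, abs_mul, abs_of_pos hLpos]
        have h5 := hsep i hir j hjr
        have h6 : 9 / ρ ≤ L := by linarith
        calc (9 : ℝ) = ρ * (9 / ρ) := by field_simp
          _ ≤ |γ * β ^ i - β ^ j| * L := by gcongr
      have hsk : ∀ k ∈ range (⌊(c2 - c1) * L⌋₊ + 1), c1 ≤ c1 + k / L →
          volume {c | (c1 ≤ c ∧ c ≤ c2) ∧ (c1 + k / L ≤ c ∧ c ≤ c1 + k / L + 1 / L) ∧
            |D c + E c| ≤ 2 * r} ≤ ENNReal.ofReal (wt r (c1 + k / L) x y x' y') := by
        intro k _ hk1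
        rcases le_or_gt (c1 + k / L) c2 with hk2 | hk2
        · have hp := piece hr0 dD dE hL1 ha hb hab hj hi hk1 hk2
          refine hp.trans (ENNReal.ofReal_le_ofReal (le_of_eq ?_))
          unfold wt
          congr 1
          simp only [hD, hE]
          rw [eq_iff_iff]
          constructor
          · intro h
            exact ⟨hxy, fun h' => hxy' h'.symm, h⟩
          · intro h
            exact h.2.2
        · have he : {c | (c1 ≤ c ∧ c ≤ c2) ∧ (c1 + k / L ≤ c ∧ c ≤ c1 + k / L + 1 / L) ∧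
            |D c + E c| ≤ 2 * r} = ∅ := by
            rw [Set.eq_empty_iff_forall_notMem]
            rintro c ⟨⟨_, h5⟩, ⟨h6, _⟩, _⟩
            linarith
          rw [he, measure_empty]
          exact zero_le
      have hcov : {c | vl α c x + vl α c x' = vl α c y + vl α c y'} ∩ Set.Icc c1 c2 ⊆
          ⋃ k ∈ range (⌊(c2 - c1) * L⌋₊ + 1),
          {c | (c1 ≤ c ∧ c ≤ c2) ∧ (c1 + (k : ℝ) / L ≤ c ∧ c ≤ c1 + k / L + 1 / L) ∧
            |D c + E c| ≤ 2 * r} := by
        rintro c ⟨hc, hcI⟩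
        rw [Set.mem_iUnion₂]
        have h0 : 0 ≤ (c - c1) * L := mul_nonneg (by linarith [hcI.1]) hLpos.le
        refine ⟨⌊(c - c1) * L⌋₊, ?_, ⟨hcI.1, hcI.2⟩, ⟨?_, ?_⟩, hnear c hc⟩
        · rw [mem_range, Nat.lt_succ_iff]
          apply Nat.floor_le_floor
          have := hcI.2
          gcongr
        · have h5 := Nat.floor_le h0
          have h6 : (⌊(c - c1) * L⌋₊ : ℝ) / L ≤ c - c1 := by
            rw [div_le_iff₀ hLpos]
            exact h5
          linarith
        · have h5 := (Nat.lt_floor_add_one ((c - c1) * L)).le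
          have h6 : c - c1 ≤ ((⌊(c - c1) * L⌋₊ : ℝ) + 1) / L := by
            rw [le_div_iff₀ hLpos]
            exact h5
          rw [add_div] at h6
          linarith
      refine (measure_mono hcov).trans ((measure_biUnion_finset_le _ _).trans ?_)
      rw [ENNReal.ofReal_sum_of_nonneg (fun k _ => wt_nonneg _ _ _ _ _ _)]
      refine Finset.sum_le_sum fun k hk => hsk k hk ?_
      have : 0 ≤ (k : ℝ) / L := by positivity
      linarith

theorem mv (h1 : S_LD) (h2 : S_CNT) : S_MV := by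
  intro β γ c1 c2 r hβ hβγ hγ hc1 hc12 hβc
  have hγ0 : 0 < γ := hβ.trans hβγ
  obtain ⟨ρ, hρ, hsep⟩ := sep r hβ hβγ hγ
  obtain ⟨K, hK, hcnt⟩ := h2 β c1 c2 γ r hβ hc1 hc12 hβc hγ0 hγ.le
  have hLD1 := h1 β c1 c2 1 (4 * r + 4) r hβ hc1 hc12 hβc one_pos le_rfl
  have hLDγ := h1 β c1 c2 γ (4 * r + 4) r hβ hc1 hc12 hβc hγ0 hγ.le
  have hcc : 0 < c2 - c1 + 1 := by linarith
  refine ⟨(c2 - c1 + 1) * (1 + 16 * K * r * Real.exp 15), by positivity, ?_⟩
  have hlog : ∀ᶠ p : ℕ in atTop, 1 + 9 / ρ ≤ Real.log p :=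
    (Real.tendsto_log_atTop.comp tendsto_natCast_atTop_atTop).eventually_ge_atTop _
  filter_upwards [hcnt, hLD1, hLDγ, hlog] with p hcnt hLD1 hLDγ hlog α hα
  set L := Real.log p with hL
  have hL1 : 1 ≤ L := by
    have : 0 ≤ 9 / ρ := by positivity
    linarith
  have hLpos : 0 < L := by linarith
  set A := blk p β r 1 with hA
  set A' := blk p β r γ with hA'
  set n := ⌊(c2 - c1) * L⌋₊ + 1 with hn
  set θ : ℝ := r * (c2 - 1 - β * c1) - γ * c1 with hθ
  have hpθ : 0 ≤ (p : ℝ) ^ θ := Real.rpow_nonneg (Nat.cast_nonneg _) _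
  -- the integral
  have e1 : ∫⁻ c in Set.Icc c1 c2, (Jc (A ×ˢ A') (fun t => vl α c t.1 + vl α c t.2) : ENNReal) =
      ∑ q ∈ (A ×ˢ A') ×ˢ (A ×ˢ A'), volume ({c | vl α c q.1.1 + vl α c q.1.2 =
        vl α c q.2.1 + vl α c q.2.2} ∩ Set.Icc c1 c2) := by
    simp only [Jc_eq]
    have hms : ∀ q : (List ℕ × List ℕ) × (List ℕ × List ℕ), MeasurableSet {c : ℝ |
        vl α c q.1.1 + vl α c q.1.2 = vl α c q.2.1 + vl α c q.2.2} := fun q =>
      measurableSet_eq_fun ((vl_measurable α _).add (vl_measurable α _))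
        ((vl_measurable α _).add (vl_measurable α _))
    rw [lintegral_finsetSum _ (fun q _ => Measurable.ite (hms q) measurable_const measurable_const)]
    refine Finset.sum_congr rfl fun q _ => ?_
    have e : (fun c : ℝ => if vl α c q.1.1 + vl α c q.1.2 = vl α c q.2.1 + vl α c q.2.2 then
        (1 : ℝ≥0∞) else 0) = {c : ℝ | vl α c q.1.1 + vl α c q.1.2 =
        vl α c q.2.1 + vl α c q.2.2}.indicator 1 := by
      funext c
      simp [Set.indicator]
    rw [e, lintegral_indicator_one (hms q), Measure.restrict_apply (hms q)]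
  rw [e1]
  have e2 : ∑ q ∈ (A ×ˢ A') ×ˢ (A ×ˢ A'), volume ({c | vl α c q.1.1 + vl α c q.1.2 =
        vl α c q.2.1 + vl α c q.2.2} ∩ Set.Icc c1 c2) ≤
      ENNReal.ofReal (∑ q ∈ (A ×ˢ A') ×ˢ (A ×ˢ A'), ((if q.1 = q.2 then c2 - c1 else 0) +
        ∑ k ∈ range n, wt r (c1 + k / L) q.1.1 q.2.1 q.1.2 q.2.2)) := by
    rw [ENNReal.ofReal_sum_of_nonneg (fun q _ => by
      have h5 : 0 ≤ ∑ k ∈ range n, wt r (c1 + k / L) q.1.1 q.2.1 q.1.2 q.2.2 :=
        Finset.sum_nonneg fun k _ => wt_nonneg _ _ _ _ _ _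
      split_ifs <;> linarith)]
    refine Finset.sum_le_sum fun q hq => ?_
    rw [mem_product, mem_product, mem_product] at hq
    exact quad hβ hβγ hγ hρ hsep hlog hLD1 hLDγ hα hq.1.1 hq.2.1 hq.1.2 hq.2.2
  refine e2.trans (ENNReal.ofReal_le_ofReal ?_)
  rw [Finset.sum_add_distrib]
  have e3 : ∑ q ∈ (A ×ˢ A') ×ˢ (A ×ˢ A'), (if q.1 = q.2 then c2 - c1 else 0) =
      (A.card * A'.card : ℝ) * (c2 - c1) := by
    rw [Finset.sum_product]
    have : ∀ t ∈ A ×ˢ A', (∑ t' ∈ A ×ˢ A', if t = t' then c2 - c1 else 0) = c2 - c1 := by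
      intro t ht
      rw [Finset.sum_ite_eq, if_pos ht]
    rw [Finset.sum_congr rfl this, Finset.sum_const, card_product, nsmul_eq_mul]
    push_cast
    ring
  have e4 : ∑ q ∈ (A ×ˢ A') ×ˢ (A ×ˢ A'),
      ∑ k ∈ range n, wt r (c1 + k / L) q.1.1 q.2.1 q.1.2 q.2.2 ≤
      n * ((A.card * A'.card : ℝ) ^ 2 * (16 * K * r * Real.exp 15 * (p : ℝ) ^ θ)) := by
    rw [Finset.sum_comm]
    have hk : ∀ k ∈ range n, ∑ q ∈ (A ×ˢ A') ×ˢ (A ×ˢ A'),
        wt r (c1 + k / L) q.1.1 q.2.1 q.1.2 q.2.2 ≤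
        (A.card * A'.card : ℝ) ^ 2 * (16 * K * r * Real.exp 15 * (p : ℝ) ^ θ) := by
      intro k hk
      have hk1 : c1 ≤ c1 + k / L := by
        have : 0 ≤ (k : ℝ) / L := by positivity
        linarith
      have hk2 : c1 + k / L ≤ c2 := by
        have h5 : k ≤ ⌊(c2 - c1) * L⌋₊ := by
          rw [mem_range] at hk
          omega
        have h6 : (k : ℝ) ≤ (c2 - c1) * L :=
          (Nat.cast_le.2 h5).trans (Nat.floor_le (mul_nonneg (by linarith) hLpos.le))
        have h7 : (k : ℝ) / L ≤ c2 - c1 := by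
          rw [div_le_iff₀ hLpos]
          exact h6
        linarith
      rw [Finset.sum_product, Finset.sum_product]
      have hin : ∀ x ∈ A, ∀ x' ∈ A', ∑ t' ∈ A ×ˢ A', wt r (c1 + k / L) x t'.1 x' t'.2 ≤
          A.card * (16 * K * r * Real.exp 15 * ((p : ℝ) ^ θ * A'.card)) := by
        intro x hx x' hx'
        rw [Finset.sum_product]
        have hy : ∀ y ∈ A, ∑ y' ∈ A', wt r (c1 + k / L) x y x' y' ≤
            16 * K * r * Real.exp 15 * ((p : ℝ) ^ θ * A'.card) := by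
          intro y _
          apply wt_sum hK (by positivity)
          intro V hV
          have h5 := hcnt (c1 + k / L) hk1 hk2 x' hx' V hV
          refine h5.trans (le_of_eq (by ring))
        refine (Finset.sum_le_sum hy).trans (le_of_eq ?_)
        rw [Finset.sum_const, nsmul_eq_mul]
      calc ∑ x ∈ A, ∑ x' ∈ A', ∑ t' ∈ A ×ˢ A', wt r (c1 + k / L) x t'.1 x' t'.2 ≤
            ∑ x ∈ A, ∑ x' ∈ A', A.card * (16 * K * r * Real.exp 15 * ((p : ℝ) ^ θ * A'.card)) :=
            Finset.sum_le_sum fun x hx => Finset.sum_le_sum fun x' hx' => hin x hx x' hx'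
        _ = _ := by
            rw [Finset.sum_const, Finset.sum_const, nsmul_eq_mul, nsmul_eq_mul]
            ring
    refine (Finset.sum_le_sum hk).trans (le_of_eq ?_)
    rw [Finset.sum_const, card_range, nsmul_eq_mul]
  rw [e3]
  have hn1 : (n : ℝ) ≤ (c2 - c1 + 1) * (1 + L) := by
    have h5 : (⌊(c2 - c1) * L⌋₊ : ℝ) ≤ (c2 - c1) * L :=
      Nat.floor_le (mul_nonneg (by linarith) hLpos.le)
    rw [hn]
    push_cast
    nlinarith
  set N : ℝ := (A.card * A'.card : ℝ) with hN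
  have hN0 : 0 ≤ N := by positivity
  have h16 : 0 ≤ 16 * K * r * Real.exp 15 := by positivity
  calc N * (c2 - c1) + ∑ q ∈ (A ×ˢ A') ×ˢ (A ×ˢ A'),
      ∑ k ∈ range n, wt r (c1 + k / L) q.1.1 q.2.1 q.1.2 q.2.2 ≤
      N * (c2 - c1) + n * (N ^ 2 * (16 * K * r * Real.exp 15 * (p : ℝ) ^ θ)) := by gcongr
    _ ≤ N * (c2 - c1 + 1) + (c2 - c1 + 1) * (1 + L) *
        (N ^ 2 * (16 * K * r * Real.exp 15 * (p : ℝ) ^ θ)) := by
        gcongr
        linarith
    _ ≤ (c2 - c1 + 1) * (1 + 16 * K * r * Real.exp 15) * (1 + L) * (N + N ^ 2 * (p : ℝ) ^ θ) := by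
        set u := c2 - c1 + 1 with hu
        set v := 16 * K * r * Real.exp 15 with hv
        set w := (p : ℝ) ^ θ with hw
        have t1 : 0 ≤ u * N * L := by positivity
        have t2 : 0 ≤ u * v * (1 + L) * N := by positivity
        have t3 : 0 ≤ u * (1 + L) * (N ^ 2 * w) := by positivity
        nlinarith

end Pool.Agent.Y220.RE
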